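import Pool.Agent.helper97.KR.Spec

set_option autoImplicit false

namespace Pool.Agent.helper97.KR

open Finset Classical

noncomputable section

theorem TSK (hINT : INT_stmt) (hCT2 : CT2_stmt) : TSK_stmt := by
  intro V E ends S U t F hUS ht h2 hlt hU hC _
  have hcs : (cS S U t).card + U.card = S.card + 1 := by
    unfold cS
    rw [Finset.card_insert_of_notMem (fun h => (Finset.mem_sdiff.mp h).2 ht)]
    have := Finset.card_sdiff_add_card_eq_card hUS
    omega
  have hcs2 : 2 ≤ (cS S U t).card := by omega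
  obtain ⟨c, hc1, hc2, hc3⟩ := hU h2
  obtain ⟨d, hd1, hd2, hd3⟩ := hC hcs2
  have hdisj : Disjoint ((ins ends F U : Finset E) : Set E) ((F \ ins ends F U : Finset E) : Set E) := by
    rw [Finset.disjoint_coe]
    exact Finset.disjoint_sdiff
  obtain ⟨e, he1, he2, he3⟩ := hINT E ((U.card : ℤ) - 1) (((cS S U t).card : ℤ) - 1) c d _ _ (by omega) (by omega)
    hc1 hd1 hc2 hd2 hdisj
  have hmn : ((U.card : ℤ) - 1) + (((cS S U t).card : ℤ) - 1) = (S.card : ℤ) - 1 := by omega
  rw [hmn] at he1 he2 he3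
  have hF : ((ins ends F U : Finset E) : Set E) ∪ ((F \ ins ends F U : Finset E) : Set E) = (F : Set E) := by
    rw [← Finset.coe_union]
    congr 1
    apply Finset.union_sdiff_of_subset
    unfold ins
    exact Finset.filter_subset _ _
  rw [hF] at he2
  refine ⟨e, he1, he2, fun j => ?_⟩
  obtain ⟨i, k, hik⟩ := he3 j
  rw [hik]
  exact hCT2 V E ends S U t _ _ ht hUS (hc3 i) (hd3 k)

end

end Pool.Agent.helper97.KR
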